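import Pool.Agent.H917AT.Eqv

set_option autoImplicit false

universe u

namespace Pool.Agent.Results.MP_95030e_al.BoundedDenominators

open Classical in
/-- The von Neumann dimension of the kernel of right multiplication by the matrix `A` over `ℚ[G]`
on `ℓ²(G)^m`: the sum over `k` of `1 - dist(δ_(k,1), kernel)²`. -/
noncomputable def dimKer {G : Type u} [Group G] {m n : ℕ} (A : Matrix (Fin m) (Fin n) (G →₀ ℚ)) :
    ℝ :=
  ∑ i : Fin m,
    (1 - Metric.infDist
      (lp.single (E := fun _ : Fin m × G => ℂ) 2 (i, (1 : G)) (1 : ℂ))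
      {x : lp (fun _ : Fin m × G => ℂ) 2 |
        ∀ (j : Fin n) (g : G),
          ∑ k : Fin m, ∑ h ∈ (A k j).support,
            x (k, g * h⁻¹) * (((A k j h : ℚ)) : ℂ) = 0} ^ 2)

open Pool.Agent.H917AT

theorem dimKer_eq {G : Type u} [Group G] {m n : ℕ} (A : Matrix (Fin m) (Fin n) (G →₀ ℚ)) :
    dimKer A = kd (A.map (Finsupp.mapRange (fun q : ℚ => (q : ℂ)) Rat.cast_zero)) := by
  classical
  unfold dimKer kd pd
  have h : {x : lp (fun _ : Fin m × G => ℂ) 2 | ∀ (j : Fin n) (g : G),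
      ∑ k : Fin m, ∑ h ∈ (A k j).support, x (k, g * h⁻¹) * (((A k j h : ℚ)) : ℂ) = 0} =
      (KerS (A.map (Finsupp.mapRange (fun q : ℚ => (q : ℂ)) Rat.cast_zero)) :
        Set (L2 (Fin m × G))) := by
    ext x
    rw [SetLike.mem_coe, mem_KerS]
    show (∀ (j : Fin n) (g : G), ∑ k : Fin m, ∑ h ∈ (A k j).support,
      x (k, g * h⁻¹) * (((A k j h : ℚ)) : ℂ) = 0) ↔ _
    refine forall_congr' fun j => forall_congr' fun g => ?_
    have h1 : ∀ k : Fin m, ((A.map (Finsupp.mapRange (fun q : ℚ => (q : ℂ)) Rat.cast_zero)) k j).sum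
        (fun h c => x (k, g * h⁻¹) * c) =
        ∑ h ∈ (A k j).support, x (k, g * h⁻¹) * (((A k j h : ℚ)) : ℂ) := by
      intro k
      rw [Matrix.map_apply, Finsupp.sum_mapRange_index]
      · rfl
      · intro a; rw [mul_zero]
    rw [Finset.sum_congr rfl (fun k _ => h1 k)]
  rw [h]

/-- rational numbers inside `ℂ` -/
noncomputable def QS : AddSubmonoid ℂ := AddMonoidHom.mrange (Rat.castHom ℂ).toAddMonoidHom

theorem DD_iff {G : Type u} [Group G] (t : ℝ) :
    DD QS G t ↔ ∃ (m n : ℕ) (A : Matrix (Fin m) (Fin n) (G →₀ ℚ)), dimKer A = t := by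
  classical
  constructor
  · rintro ⟨m, n, A, hA, rfl⟩
    have h : ∀ i j g, ∃ q : ℚ, (q : ℂ) = A i j g := fun i j g => hA i j g
    choose f hf using h
    have hf0 : ∀ i j g, A i j g = 0 → f i j g = 0 := by
      intro i j g h0
      have := hf i j g
      rw [h0] at this
      exact_mod_cast this
    refine ⟨m, n, Matrix.of fun i j => Finsupp.onFinset (A i j).support (f i j) (fun g hg => by
      rw [Finsupp.mem_support_iff]
      intro h0
      exact hg (hf0 i j g h0)), ?_⟩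
    rw [dimKer_eq]
    congr 1
    ext1 i j
    ext g
    rw [Matrix.map_apply, Matrix.of_apply, Finsupp.mapRange_apply, Finsupp.onFinset_apply]
    exact hf i j g
  · rintro ⟨m, n, A, rfl⟩
    refine ⟨m, n, A.map (Finsupp.mapRange (fun q : ℚ => (q : ℂ)) Rat.cast_zero), fun i j g => ?_,
      (dimKer_eq A).symm⟩
    rw [Matrix.map_apply, Finsupp.mapRange_apply]
    exact ⟨A i j g, rfl⟩

/-- Equivalence of
1. every torsion-free group satisfies the Atiyah conjecture;
2. for every finitely generated torsion-free group `G` there is an integer `N > 0` such that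
   `N * dim ker r_A` is an integer for all matrices `A` over `ℚ[G]`;
3. for every finitely generated torsion-free group `G` there is a nonempty open subinterval `(r, s)`
   of `[0, 1]` such that no `dim ker r_A`, `A` a matrix over `ℚ[G]`, lies in `l + (r, s)`, `l ∈ ℤ`;
4. for every finitely generated torsion-free group `G` there are `n ≥ 1` and `1 ≤ N < 2 ^ n` such
   that `N * dim ker r_A` is an integer for all matrices `A` over `ℚ[G ^ n]`. -/
theorem result : List.TFAE [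
    ∀ (G : Type u) [Group G], (∀ (g : G) (n : ℕ), 0 < n → g ^ n = 1 → g = 1) →
      ∀ (m n : ℕ) (A : Matrix (Fin m) (Fin n) (G →₀ ℚ)), ∃ d : ℤ, dimKer A = d,
    ∀ (G : Type u) [Group G], (∀ (g : G) (n : ℕ), 0 < n → g ^ n = 1 → g = 1) → Group.FG G →
      ∃ N : ℕ, 0 < N ∧ ∀ (m n : ℕ) (A : Matrix (Fin m) (Fin n) (G →₀ ℚ)),
        ∃ d : ℤ, (N : ℝ) * dimKer A = d,
    ∀ (G : Type u) [Group G], (∀ (g : G) (n : ℕ), 0 < n → g ^ n = 1 → g = 1) → Group.FG G →
      ∃ r s : ℝ, 0 ≤ r ∧ r < s ∧ s ≤ 1 ∧ ∀ (m n : ℕ) (A : Matrix (Fin m) (Fin n) (G →₀ ℚ)) (l : ℤ),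
        ¬ (r < dimKer A - l ∧ dimKer A - l < s),
    ∀ (G : Type u) [Group G], (∀ (g : G) (n : ℕ), 0 < n → g ^ n = 1 → g = 1) → Group.FG G →
      ∃ k N : ℕ, 0 < k ∧ 0 < N ∧ N < 2 ^ k ∧
        ∀ (m n : ℕ) (A : Matrix (Fin m) (Fin n) ((Fin k → G) →₀ ℚ)),
          ∃ d : ℤ, (N : ℝ) * dimKer A = d] := by
  have h := eqv.{u} QS
  have h12 := h.out 0 1
  have h13 := h.out 0 2
  simp only [DD_iff] at h12 h13
  tfae_have 1 ↔ 2 := by
    constructor
    · intro h0 G _ hG hfg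
      obtain ⟨N, hN, hN2⟩ := h12.1 (fun G _ hG t ⟨m, n, A, hA⟩ => hA ▸ h0 G hG m n A) G hG hfg
      exact ⟨N, hN, fun m n A => hN2 _ ⟨m, n, A, rfl⟩⟩
    · intro h0 G _ hG m n A
      refine h12.2 (fun G _ hG hfg => ?_) G hG _ ⟨m, n, A, rfl⟩
      obtain ⟨N, hN, hN2⟩ := h0 G hG hfg
      exact ⟨N, hN, fun t ⟨m, n, A, hA⟩ => hA ▸ hN2 m n A⟩
  tfae_have 1 ↔ 3 := by
    constructor
    · intro h0 G _ hG hfg
      obtain ⟨r, s, h1, h2, h3, h4⟩ :=
        h13.1 (fun G _ hG t ⟨m, n, A, hA⟩ => hA ▸ h0 G hG m n A) G hG hfg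
      exact ⟨r, s, h1, h2, h3, fun m n A => h4 _ ⟨m, n, A, rfl⟩⟩
    · intro h0 G _ hG m n A
      refine h13.2 (fun G _ hG hfg => ?_) G hG _ ⟨m, n, A, rfl⟩
      obtain ⟨r, s, h1, h2, h3, h4⟩ := h0 G hG hfg
      exact ⟨r, s, h1, h2, h3, fun t ⟨m, n, A, hA⟩ => hA ▸ h4 m n A⟩
  tfae_have 1 → 4 := by
    intro h0 G _ hG _
    refine ⟨1, 1, one_pos, one_pos, by norm_num, fun m n A => ?_⟩
    obtain ⟨d, hd⟩ := h0 (Fin 1 → G) (fun g n hn h => by
      funext i
      exact hG (g i) n hn (congrFun h i)) m n A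
    exact ⟨d, by rw [hd]; simp⟩
  tfae_have 4 → 1 := by
    intro h0 G _ hG m n A
    have hD : DD QS G (dimKer A) := (DD_iff _).2 ⟨m, n, A, rfl⟩
    obtain ⟨N, hNfg, hND⟩ := hD.fg
    have hNT : ∀ (g : N) (n : ℕ), 0 < n → g ^ n = 1 → g = 1 := by
      intro g n hn h
      apply Subtype.ext
      exact hG g n hn (by
        have := congrArg Subtype.val h
        simpa using this)
    obtain ⟨k, M, hk, hM, hMk, hint⟩ := h0 N hNT ((Group.fg_iff_subgroup_fg N).2 hNfg)
    have := amplify QS N 1 k M one_pos hk hM hMk (fun t ht => by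
      obtain ⟨m', n', A', rfl⟩ := (DD_iff t).1 ht
      obtain ⟨z, hz⟩ := hint m' n' A'
      exact ⟨z, by rw [← hz]; simp⟩) _ hND
    simpa using this
  tfae_finish

end Pool.Agent.Results.MP_95030e_al.BoundedDenominators
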