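import Pool.Agent.H61R3.AT3

set_option autoImplicit false

universe u

noncomputable section

namespace Pool.Agent.Results.MP_95030e_al.RankLowerBound

/-- The kernel of right multiplication by the matrix `A` over the complex group ring on row vectors
of length `m` over `l2(G)`: all square-summable `x` with `x A = 0`. -/
def kernel {G : Type u} [Group G] {m l : ℕ} (A : Matrix (Fin m) (Fin l) (G →₀ ℂ)) :
    Set (lp (fun _ : Fin m × G => ℂ) 2) :=
  {x | ∀ (j : Fin l) (g : G),
    ∑ k : Fin m, ∑ h ∈ (A k j).support, x (k, g * h⁻¹) * A k j h = 0}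

open Classical in
/-- The von Neumann dimension of that kernel: the sum over `i` of one minus the square of the
distance from the basis vector at `(i, 1)` to the kernel, that is, the sum of the squared lengths
of the projections of these vectors to the kernel. -/
def kerDim {G : Type u} [Group G] {m l : ℕ} (A : Matrix (Fin m) (Fin l) (G →₀ ℂ)) : ℝ :=
  ∑ i : Fin m, (1 - Metric.infDist
    (lp.single (E := fun _ : Fin m × G => ℂ) 2 (i, (1 : G)) (1 : ℂ)) (kernel A) ^ 2)

/-- Let `G` be a torsion-free group and `A` an `m × l` matrix over the complex group ring of `G`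
whose column `j` is not zero, and let `n` be the total number of terms of the entries of column
`j`. Then the von Neumann dimension of the kernel of right multiplication by `A` on `l2(G)^m` is at
most `m - (√(4 n² + 5) - 2 n)`. -/
theorem result {G : Type u} [Group G] (htf : ∀ g : G, IsOfFinOrder g → g = 1) {m l : ℕ}
    (A : Matrix (Fin m) (Fin l) (G →₀ ℂ)) (j : Fin l) (hj : ∃ k, A k j ≠ 0)
    (n : ℕ) (hn : n = ∑ k, (A k j).support.card) :
    kerDim A ≤ m - (Real.sqrt (4 * (n : ℝ) ^ 2 + 5) - 2 * n) := by
  classical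
  set c : Fin m × G → ℂ := fun p => A p.1 j p.2 with hc
  set S : Finset (Fin m × G) := (Finset.univ.sigma fun k : Fin m => (A k j).support).map
    (Equiv.sigmaEquivProd (Fin m) G).toEmbedding with hS
  have hmem : ∀ p, p ∈ S ↔ c p ≠ 0 := by
    intro p
    rw [hS, Finset.mem_map_equiv, Finset.mem_sigma]
    simp [hc]
  have hcard : S.card = n := by
    rw [hS, Finset.card_map, Finset.card_sigma, hn]
  have hne : S.Nonempty := by
    obtain ⟨k, hk⟩ := hj
    obtain ⟨h, hh⟩ := Finsupp.ne_iff.1 hk
    exact ⟨(k, h), (hmem _).2 (by simpa [hc] using hh)⟩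
  have hsub : kernel A ⊆ H61R3AT.Kc S c := by
    intro x hx g
    have := hx j g
    rw [hS, Finset.sum_map, Finset.sum_sigma]
    exact this
  have h0 : (0 : lp (fun _ : Fin m × G => ℂ) 2) ∈ kernel A := by
    intro j g
    simp
  have hmain := H61R3AT.column S c htf hmem hne
  set r := ∑ k : Fin m, Metric.infDist
    (H61R3AT.sd (k, 1) : lp (fun _ : Fin m × G => ℂ) 2) (H61R3AT.Kc S c) ^ 2 with hr
  have hr0 : 0 ≤ r := Finset.sum_nonneg fun _ _ => sq_nonneg _
  have h1 : kerDim A ≤ m - r := by
    unfold kerDim
    rw [Finset.sum_sub_distrib, Finset.sum_const, Finset.card_univ, Fintype.card_fin,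
      nsmul_eq_mul, mul_one]
    apply sub_le_sub_left
    rw [hr]
    apply Finset.sum_le_sum
    intro k _
    have h2 := Metric.infDist_le_infDist_of_subset (x := (H61R3AT.sd (k, 1) :
      lp (fun _ : Fin m × G => ℂ) 2)) hsub ⟨0, h0⟩
    have h3 := pow_le_pow_left₀ Metric.infDist_nonneg h2 2
    refine h3.trans (le_of_eq ?_)
    unfold H61R3AT.sd
    congr!
  refine h1.trans (sub_le_sub_left ?_ _)
  rw [hcard] at hmain
  have h2 : Real.sqrt (4 * (n : ℝ) ^ 2 + 5) ≤ r + 2 * n := by
    apply Real.sqrt_le_iff.2
    constructor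
    · positivity
    · nlinarith
  linarith

end Pool.Agent.Results.MP_95030e_al.RankLowerBound
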